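import Pool.Agent.Q67.VD2.Time
import Pool.Agent.Q67.VD.Holder

/-!
Directions of the vorticity which are Hoelder continuous.
-/

set_option autoImplicit false

open MeasureTheory Set Metric Filter
open scoped ENNReal ContDiff Topology
open H459R3.NS Pool.Agent.W268.NS Pool.Agent.Q67.VD

namespace Pool.Agent.Q67.VD2

lemma int_le_energy {v : V → V} (hv : ∀ i, SP (fun y => v y i)) {E R : ℝ} (hR : 0 < R)
    (hR2 : R ≤ 1 / 2) (hE : energy v ≤ E) (x : V) (i : Fin 3) :
    ∫ y in closedBall x R, |v y i| ≤ 3 * √(E / R) * R ^ 2 := by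
  have h1 := mean_le (hv i).per (hv i).cont hR hR2 x ((comp_le_energy v i).trans hE)
  rw [ball_shift (fun y => |v y i|) x R, div_le_iff₀ (by positivity)] at h1
  refine h1.trans (le_of_eq ?_)
  have hE0 : 0 ≤ E := (energy_nonneg' v).trans hE
  have e1 : E / R = R ^ 4 * (E / R ^ 5) := by field_simp
  rw [e1, Real.sqrt_mul (by positivity), show R ^ 4 = (R ^ 2) ^ 2 by ring,
    Real.sqrt_sq (by positivity)]
  ring

/-- the rate in the exponent of the growth of the enstrophy -/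
lemma rate_le2 {β ν E μ C G : ℝ} (hβ0 : 0 < β) (hβ1 : β ≤ 1) (hν : 0 < ν) (hE : 0 ≤ E)
    (hμ : 0 < μ) (hC : 0 < C) (hG : 1 ≤ G) {R₀ R₁ A M δ a : ℝ} (hR0 : R₀ = 1 / 2 * G ^ (-(1 / β)))
    (hA : A = 3 * √(E / R₀)) (hM : M = μ * G ^ (5 / (2 * β)))
    (hδ : δ = min 1 ((1 / 2) ^ 2 * ν / (C * (A + M * R₀ ^ 2))))
    (hR1 : R₁ = 1 / 2 * (δ / G) ^ (1 / β)) (ha : a = 1 + 4 * C * (3 * √(2 * E) + μ) / ν) :
    ν / R₁ ^ 2 + M ^ 2 * R₁ ^ 2 / ν + M * Real.log (R₀ / R₁) + A / R₀ ^ 2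
      ≤ (4 * ν * a ^ (2 / β) + μ ^ 2 / ν + μ * a / β + 12 * √(2 * E))
        * G ^ ((2 * β + 1) / β ^ 2) := by
  have hG0 : 0 < G := by linarith
  set q : ℝ := (2 * β + 1) / β ^ 2 with hq
  have hR0p : 0 < R₀ := by rw [hR0]; positivity
  have hsE : 0 ≤ √(2 * E) := Real.sqrt_nonneg _
  have hA2 : A = 3 * √(2 * E) * G ^ (1 / (2 * β)) := by
    have e1 : E / R₀ = 2 * E * G ^ (1 / β) := by
      rw [hR0, Real.rpow_neg hG0.le]
      field_simp
    rw [hA, e1, Real.sqrt_mul (by positivity), Real.sqrt_eq_rpow (G ^ (1 / β)),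
      ← Real.rpow_mul hG0.le]
    have e2 : 1 / β * (1 / 2) = 1 / (2 * β) := by field_simp
    rw [e2]
    ring
  have hR02 : R₀ ^ 2 = 1 / 4 * G ^ (-(2 / β)) := by
    rw [hR0, mul_pow, ← Real.rpow_natCast (G ^ (-(1 / β))) 2, ← Real.rpow_mul hG0.le]
    norm_num
    congr 1
    ring
  have hMR : M * R₀ ^ 2 = μ / 4 * G ^ (1 / (2 * β)) := by
    have e1 : (1 : ℝ) / (2 * β) = 5 / (2 * β) + -(2 / β) := by field_simp; norm_num
    rw [hM, hR02, e1, Real.rpow_add hG0]
    ring
  have hM0 : 0 < M := by rw [hM]; positivity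
  have hA0 : 0 ≤ A := by rw [hA2]; positivity
  set b : ℝ := 3 * √(2 * E) + μ with hb
  have hs : A + M * R₀ ^ 2 ≤ b * G ^ (1 / (2 * β)) := by
    rw [hA2, hMR, hb]
    have : 0 ≤ μ * G ^ (1 / (2 * β)) := by positivity
    linarith
  set s : ℝ := A + M * R₀ ^ 2 with hsdef
  have hs0 : 0 < s := by positivity
  have hδp : 0 < δ := by rw [hδ]; exact lt_min one_pos (by positivity)
  have hδ1 : δ ≤ 1 := by rw [hδ]; exact min_le_left _ _
  have hG1 : 1 ≤ G ^ (1 / (2 * β)) := Real.one_le_rpow hG (by positivity)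
  have hinv : 1 / δ ≤ a * G ^ (1 / (2 * β)) := by
    have h1 : 1 / δ ≤ 1 + 4 * (C * s) / ν := by
      rw [hδ]
      have hq0 : 0 < 4 * (C * s) / ν := by positivity
      rcases le_total 1 ((1 / 2) ^ 2 * ν / (C * s)) with h | h
      · rw [min_eq_left h]
        simp only [ne_eq, one_ne_zero, not_false_eq_true, div_self]
        linarith
      · rw [min_eq_right h, one_div_div]
        have : C * s / ((1 / 2) ^ 2 * ν) = 4 * (C * s) / ν := by field_simp; norm_num
        linarith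
    refine h1.trans ?_
    rw [ha, add_mul, one_mul]
    have h4 : 4 * (C * s) / ν ≤ 4 * C * b / ν * G ^ (1 / (2 * β)) := by
      have : 4 * C * b / ν * G ^ (1 / (2 * β)) = 4 * (C * (b * G ^ (1 / (2 * β)))) / ν := by ring
      rw [this]
      gcongr
    linarith
  have ha0 : 0 < a := by rw [ha]; positivity
  have hR1p : 0 < R₁ := by rw [hR1]; positivity
  have hR10 : R₁ ≤ R₀ := by
    rw [hR1, hR0, Real.rpow_neg hG0.le, ← Real.inv_rpow hG0.le]
    refine mul_le_mul_of_nonneg_left ?_ (by norm_num)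
    refine Real.rpow_le_rpow (by positivity) ?_ (by positivity)
    rw [div_eq_mul_inv]
    have : 0 ≤ G⁻¹ := by positivity
    nlinarith
  have hpq : ∀ s : ℝ, s * β ^ 2 ≤ 2 * β + 1 → G ^ s ≤ G ^ q := by
    intro s hs
    refine Real.rpow_le_rpow_of_exponent_le hG ?_
    rw [hq, le_div_iff₀ (by positivity)]
    exact hs
  have q3 : G ^ (3 / β) ≤ G ^ q := hpq _ (by
    have : 3 / β * β ^ 2 = 3 * β := by field_simp
    rw [this]; linarith)
  have q5 : G ^ (5 / (2 * β)) ≤ G ^ q := hpq _ (by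
    have : 5 / (2 * β) * β ^ 2 = 5 / 2 * β := by field_simp
    rw [this]; linarith)
  have t1 : ν / R₁ ^ 2 ≤ 4 * ν * a ^ (2 / β) * G ^ q := by
    have e1 : R₁ ^ 2 = 1 / 4 * (δ / G) ^ (2 / β) := by
      rw [hR1, mul_pow, ← Real.rpow_natCast ((δ / G) ^ (1 / β)) 2, ← Real.rpow_mul (by positivity)]
      norm_num
      congr 1
      ring
    have e2 : ν / R₁ ^ 2 = 4 * ν * (G * (1 / δ)) ^ (2 / β) := by
      rw [e1]
      have e3 : (G * (1 / δ)) ^ (2 / β) = ((δ / G) ^ (2 / β))⁻¹ := by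
        rw [← Real.inv_rpow (by positivity)]
        congr 1
        field_simp
      rw [e3]
      field_simp
    have e4 : 4 * ν * a ^ (2 / β) * G ^ q = 4 * ν * (a ^ (2 / β) * G ^ q) := by ring
    rw [e2, e4]
    refine mul_le_mul_of_nonneg_left ?_ (by positivity)
    have h1 : G * (1 / δ) ≤ a * G ^ (1 + 1 / (2 * β)) := by
      rw [Real.rpow_add hG0, Real.rpow_one]
      calc G * (1 / δ) ≤ G * (a * G ^ (1 / (2 * β))) := mul_le_mul_of_nonneg_left hinv hG0.le
        _ = _ := by ring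
    calc (G * (1 / δ)) ^ (2 / β) ≤ (a * G ^ (1 + 1 / (2 * β))) ^ (2 / β) :=
          Real.rpow_le_rpow (by positivity) h1 (by positivity)
      _ = a ^ (2 / β) * G ^ q := by
          rw [Real.mul_rpow ha0.le (by positivity), ← Real.rpow_mul hG0.le]
          congr 2
          rw [hq]
          field_simp
  have t2 : M ^ 2 * R₁ ^ 2 / ν ≤ μ ^ 2 / ν * G ^ q := by
    have h1 : M ^ 2 * R₁ ^ 2 ≤ μ ^ 2 * G ^ (3 / β) := by
      calc M ^ 2 * R₁ ^ 2 ≤ M ^ 2 * R₀ ^ 2 := by gcongr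
        _ = μ ^ 2 / 4 * (G ^ (5 / (2 * β)) * G ^ (1 / (2 * β))) := by
            have : M ^ 2 * R₀ ^ 2 = M * (M * R₀ ^ 2) := by ring
            rw [this, hMR, hM]
            ring
        _ = μ ^ 2 / 4 * G ^ (3 / β) := by
            rw [← Real.rpow_add hG0]
            congr 2
            field_simp
            norm_num
        _ ≤ μ ^ 2 * G ^ (3 / β) := by
            have : 0 ≤ μ ^ 2 * G ^ (3 / β) := by positivity
            linarith
    calc M ^ 2 * R₁ ^ 2 / ν ≤ μ ^ 2 * G ^ (3 / β) / ν := by gcongr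
      _ ≤ μ ^ 2 * G ^ q / ν := by gcongr
      _ = _ := by ring
  have t3 : M * Real.log (R₀ / R₁) ≤ μ * a / β * G ^ q := by
    have e1 : R₀ / R₁ = (1 / δ) ^ (1 / β) := by
      rw [hR0, hR1, Real.rpow_neg hG0.le, ← Real.inv_rpow hG0.le]
      have e2 : (1 / 2 * G⁻¹ ^ (1 / β)) / (1 / 2 * (δ / G) ^ (1 / β))
          = G⁻¹ ^ (1 / β) / (δ / G) ^ (1 / β) := by
        field_simp
      rw [e2, ← Real.div_rpow (by positivity) (by positivity)]
      congr 1
      field_simp
    have h1 : Real.log (R₀ / R₁) ≤ a / β * G ^ (1 / (2 * β)) := by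
      rw [e1, Real.log_rpow (by positivity)]
      have h2 : Real.log (1 / δ) ≤ 1 / δ := (Real.log_le_sub_one_of_pos (by positivity)).trans
        (by linarith)
      calc 1 / β * Real.log (1 / δ) ≤ 1 / β * (a * G ^ (1 / (2 * β))) :=
            mul_le_mul_of_nonneg_left (h2.trans hinv) (by positivity)
        _ = _ := by ring
    calc M * Real.log (R₀ / R₁) ≤ M * (a / β * G ^ (1 / (2 * β))) :=
          mul_le_mul_of_nonneg_left h1 hM0.le
      _ = μ * a / β * (G ^ (5 / (2 * β)) * G ^ (1 / (2 * β))) := by rw [hM]; ring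
      _ = μ * a / β * G ^ (3 / β) := by
          rw [← Real.rpow_add hG0]
          congr 2
          field_simp
          norm_num
      _ ≤ μ * a / β * G ^ q := by gcongr
  have t4 : A / R₀ ^ 2 ≤ 12 * √(2 * E) * G ^ q := by
    have h1 : A / R₀ ^ 2 = 12 * √(2 * E) * G ^ (5 / (2 * β)) := by
      have e1 : (5 : ℝ) / (2 * β) = 1 / (2 * β) + 2 / β := by field_simp; norm_num
      rw [hA2, hR02, Real.rpow_neg hG0.le, e1, Real.rpow_add hG0]
      field_simp
      ring
    rw [h1]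
    gcongr
  rw [add_mul, add_mul, add_mul]
  linarith

/-- Hoelder continuous directions. -/
theorem holder2 {C : ℝ} (hC : 0 < C) (hcrit : Crit C) {β ν E μ : ℝ} (hβ0 : 0 < β) (hβ1 : β ≤ 1)
    (hν : 0 < ν) (hE : 0 ≤ E) (hμ : 0 < μ) : ∃ Λ : ℝ, 0 < Λ ∧
    ∀ (T : ℝ) (u : ℝ → V → V) (p : ℝ → V → ℝ) (T₀ : ℝ) (g : ℝ → ℝ),
    IsSol ν T u p → T₀ ∈ Ico 0 T → energy (u T₀) ≤ E → (∀ t ∈ Ioo T₀ T, 0 ≤ g t) →
    (∀ t ∈ Ioo T₀ T, ∀ x y, μ * (1 + g t) ^ (5 / (2 * β)) < om (u t) x →
      μ * (1 + g t) ^ (5 / (2 * β)) < om (u t) y →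
      len (dir (u t) x - dir (u t) y) ≤ g t * ‖x - y‖ ^ β) →
    IntegrableOn (fun t => g t ^ ((2 * β + 1) / β ^ 2)) (Ioo T₀ T) →
    (∀ t ∈ Ico T₀ T, enstrophy (u t) ≤ enstrophy (u T₀)
      * Real.exp (Λ * ∫ s in T₀..t, (1 + g s) ^ ((2 * β + 1) / β ^ 2))) ∧
    ∃ B, ∀ t ∈ Ico 0 T, ∀ x i, |u t x i| ≤ B := by
  set q : ℝ := (2 * β + 1) / β ^ 2 with hq
  have hq0 : 0 < q := by positivity
  set a : ℝ := 1 + 4 * C * (3 * √(2 * E) + μ) / ν with ha
  have hsE : 0 ≤ √(2 * E) := Real.sqrt_nonneg _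
  have ha0 : 0 < a := by positivity
  set Λ' : ℝ := 4 * ν * a ^ (2 / β) + μ ^ 2 / ν + μ * a / β + 12 * √(2 * E) with hΛ'
  have hΛ'0 : 0 < Λ' := by positivity
  refine ⟨C * Λ', by positivity, ?_⟩
  intro T u p T₀ g hsol hT₀ hEn hg hdir hgi
  set G : ℝ → ℝ := fun t => 1 + g t with hG
  have hG1 : ∀ t ∈ Ioo T₀ T, 1 ≤ G t := fun t ht => by
    have := hg t ht
    simp only [hG]
    linarith
  set R₀ : ℝ → ℝ := fun t => 1 / 2 * G t ^ (-(1 / β)) with hR₀
  set A : ℝ → ℝ := fun t => 3 * √(E / R₀ t) with hA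
  set M : ℝ → ℝ := fun t => μ * G t ^ (5 / (2 * β)) with hM
  set δ : ℝ → ℝ := fun t => min 1 ((1 / 2) ^ 2 * ν / (C * (A t + M t * R₀ t ^ 2))) with hδ
  set R₁ : ℝ → ℝ := fun t => 1 / 2 * (δ t / G t) ^ (1 / β) with hR₁
  have hint : IntegrableOn (fun t => Λ' * G t ^ q) (Ioo T₀ T) := by
    refine Integrable.const_mul ?_ _
    have hmeas : AEStronglyMeasurable (fun t => G t ^ q) (volume.restrict (Ioo T₀ T)) := by
      have h1 : AEMeasurable (fun t => g t ^ q) (volume.restrict (Ioo T₀ T)) :=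
        hgi.aestronglyMeasurable.aemeasurable
      have h2 : AEMeasurable (fun t => (1 + (g t ^ q) ^ (1 / q)) ^ q)
          (volume.restrict (Ioo T₀ T)) := ((h1.pow_const _).const_add 1).pow_const _
      refine AEMeasurable.aestronglyMeasurable (h2.congr ?_)
      refine (ae_restrict_iff' measurableSet_Ioo).2 (Eventually.of_forall fun t ht => ?_)
      simp only [hG]
      rw [← Real.rpow_mul (hg t ht), mul_one_div_cancel hq0.ne', Real.rpow_one]
    have hb : IntegrableOn (fun t => (2 : ℝ) ^ q * (1 + g t ^ q)) (Ioo T₀ T) := by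
      refine Integrable.const_mul (Integrable.add ?_ hgi) _
      exact integrableOn_const (by simp)
    refine hb.mono' hmeas ?_
    refine (ae_restrict_iff' measurableSet_Ioo).2 (Eventually.of_forall fun t ht => ?_)
    have hgt := hg t ht
    simp only [hG]
    rw [Real.norm_eq_abs, abs_of_nonneg (by positivity)]
    have h3 : 0 ≤ g t ^ q := Real.rpow_nonneg hgt _
    rcases le_total (g t) 1 with h | h
    · calc (1 + g t) ^ q ≤ 2 ^ q := Real.rpow_le_rpow (by positivity) (by linarith) hq0.le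
        _ ≤ 2 ^ q * (1 + g t ^ q) := by
            have : (0 : ℝ) ≤ 2 ^ q := by positivity
            nlinarith
    · calc (1 + g t) ^ q ≤ (2 * g t) ^ q :=
            Real.rpow_le_rpow (by positivity) (by linarith) hq0.le
        _ = 2 ^ q * g t ^ q := Real.mul_rpow (by norm_num) hgt
        _ ≤ 2 ^ q * (1 + g t ^ q) := by
            have : (0 : ℝ) ≤ 2 ^ q := by positivity
            nlinarith
  have hEt : ∀ t ∈ Ioo T₀ T, energy (u t) ≤ E := by
    intro t ht
    have h1 := (shift_sol hsol hT₀).energy_le hν (t := t - T₀)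
      ⟨by linarith [ht.1], by linarith [ht.2]⟩
    simp only [sub_add_cancel, zero_add] at h1
    exact h1.trans hEn
  have key := hcrit ν T u p T₀ A (fun _ => 1 / 2) R₀ R₁ M (fun t => Λ' * G t ^ q) hν hsol hT₀
    (fun t ht => ?_) hint
  · obtain ⟨k1, k2⟩ := key
    refine ⟨fun t ht => ?_, k2⟩
    have h1 := k1 t ht
    rw [intervalIntegral.integral_const_mul, ← mul_assoc] at h1
    exact h1
  · have hG1t := hG1 t ht
    have hG0 : 0 < G t := by linarith
    have hR0p : 0 < R₀ t := by simp only [hR₀]; positivity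
    have hA0 : 0 ≤ A t := by simp only [hA]; positivity
    have hM0 : 0 < M t := by simp only [hM]; positivity
    have hδp : 0 < δ t := lt_min one_pos (by positivity)
    have hδ1 : δ t ≤ 1 := min_le_left _ _
    have hR1p : 0 < R₁ t := by simp only [hR₁]; positivity
    have hR10 : R₁ t ≤ R₀ t := by
      simp only [hR₁, hR₀]
      refine mul_le_mul_of_nonneg_left ?_ (by norm_num)
      rw [Real.rpow_neg hG0.le, ← Real.inv_rpow hG0.le]
      refine Real.rpow_le_rpow (by positivity) ?_ (by positivity)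
      rw [div_eq_mul_inv]
      have : 0 ≤ (G t)⁻¹ := by positivity
      nlinarith
    have hR01 : R₀ t ≤ 1 / 2 := by
      simp only [hR₀]
      have : G t ^ (-(1 / β)) ≤ 1 := Real.rpow_le_one_of_one_le_of_nonpos hG1t (by
        have : 0 < 1 / β := by positivity
        linarith)
      linarith
    have htI : t ∈ Ico 0 T := ⟨by linarith [ht.1, hT₀.1], ht.2⟩
    have hgG : g t ≤ G t := by simp only [hG]; linarith
    refine ⟨hM0, by norm_num, by norm_num, hR1p, hR10, by linarith,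
      fun x i => int_le_energy (fun i => hsol.sp htI i) hR0p hR01 (hEt t ht) x i, ?_,
      fun x y hxy hx hy => ?_⟩
    · exact rate_le2 hβ0 hβ1 hν hE hμ hC hG1t rfl rfl rfl rfl rfl rfl
    · have hn := norm_nonneg (x - y)
      have h1 : len (dir (u t) x - dir (u t) y) ≤ G t * ‖x - y‖ ^ β :=
        (hdir t ht x y hx hy).trans (mul_le_mul_of_nonneg_right hgG (Real.rpow_nonneg hn _))
      constructor
      · refine half_le_of_dir (hM0.trans hx) (hM0.trans hy) (h1.trans ?_)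
        have h2 : ‖x - y‖ ^ β ≤ (G t ^ (-(1 / β))) ^ β := by
          refine Real.rpow_le_rpow hn (hxy.trans ?_) hβ0.le
          simp only [hR₀]
          have : 0 < G t ^ (-(1 / β)) := by positivity
          linarith
        have h3 : (G t ^ (-(1 / β))) ^ β = (G t)⁻¹ := by
          rw [← Real.rpow_mul hG0.le, ← Real.rpow_neg_one]
          congr 1
          field_simp
        calc G t * ‖x - y‖ ^ β ≤ G t * (G t)⁻¹ := by
              rw [← h3]
              exact mul_le_mul_of_nonneg_left h2 hG0.le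
          _ = 1 := mul_inv_cancel₀ hG0.ne'
      · refine h1.trans ((two_scales (R₁ := (δ t / G t) ^ (1 / β)) hβ0 hβ1 hG0 hδp hn rfl).trans ?_)
        refine mul_le_mul_of_nonneg_left ?_ hδp.le
        have h4 : 0 < (δ t / G t) ^ (1 / β) := by positivity
        have h5 : R₁ t ≤ (δ t / G t) ^ (1 / β) := by
          simp only [hR₁]
          linarith
        have h6 : ‖x - y‖ / (δ t / G t) ^ (1 / β) ≤ ‖x - y‖ / R₁ t :=
          div_le_div_of_nonneg_left hn hR1p h5
        linarith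

end Pool.Agent.Q67.VD2
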