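import Pool.Agent.Q67.VD2.Shell

/-!
The velocity near a point with large vorticity.
-/

set_option autoImplicit false

open MeasureTheory Set Metric Filter
open scoped ENNReal ContDiff Topology
open H459R3.NS Pool.Agent.W268.NS Pool.Agent.Q67.VD

namespace Pool.Agent.Q67.VD2

section

variable {v : V → V} {K L ρ δ M A : ℝ} {x₀ y₀ : V}
  (hv : ∀ i, SP (fun y => v y i)) (hdiv : ∀ x, ∑ i, pd i (fun y => v y i) x = 0) (hK : 0 ≤ K)
  (hρ : 0 < ρ) (hρL : ρ ≤ L) (hL : L ≤ 1) (hδ : 0 ≤ δ) (hM : 0 < M) (hA0 : 0 ≤ A)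
  (hA : ∀ x i, ∫ y in closedBall x L, |v y i| ≤ A * L ^ 2)
  (hm : Mor K L (om v)) (hco : Coh v M δ ρ (4 * L)) (hy0 : y₀ ∈ closedBall x₀ ρ)
  (hb : M < om v y₀)

include hv hdiv hK hρ hρL hL hδ hM hA0 hA hm hco hy0 hb in
lemma exists_w {C : ℝ} (hC : 0 < C) (dec : Dec C) : ∃ w₂ : V → ℝ, SP w₂ ∧
    (∀ y ∈ closedBall x₀ ρ, |lin (dir v y₀) v y - w₂ y|
      ≤ 72 * C * (δ * pot ρ (om v) y + M * ρ)) ∧
    (∀ y ∈ closedBall x₀ ρ, ∀ j, |pd j w₂ y|
      ≤ 168 * C * (δ * K / ρ ^ 2 + M * (1 + Real.log (L / ρ)) + A / L ^ 2)) := by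
  have hd : len (dir v y₀) = 1 := len_dir (hM.trans hb)
  have hL0 : 0 < L := hρ.trans_le hρL
  obtain ⟨w₂, h1, h2, h3⟩ := dec ρ L (lin (dir v y₀) v) (Gf (dir v y₀) v) hρ hρL (by linarith)
    (sp_lin hv _) (fun i => sp_Gf hv _ i) (lap_lin hv hdiv _)
  refine ⟨w₂, h1, fun y hy => (h2 y).trans ?_, fun y hy j => (h3 y j).trans ?_⟩
  · have h4 : ∀ i, pot ρ (Gf (dir v y₀) v i) y ≤ (4 * δ) * pot ρ (om v) y + 24 * M * ρ := by
      intro i
      refine pot_le (sp_Gf hv _ i).per (sp_Gf hv _ i).cont (om_per hv) (om_cont hv) hρ.le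
        fun z hz => ?_
      refine (G_le hρ hρL hδ hM hco hy0 hb hy (hz.trans hρL) i).1.trans ?_
      rw [abs_of_nonneg (om_nonneg _ _)]
      have h5 : ‖z‖ / ρ ≤ 1 := (div_le_one hρ).2 hz
      have h6 : δ * (3 + ‖z‖ / ρ) ≤ 4 * δ := by nlinarith
      linarith [mul_le_mul_of_nonneg_right h6 (om_nonneg v (y + z))]
    have h5 : ∑ i, pot ρ (Gf (dir v y₀) v i) y ≤ 72 * (δ * pot ρ (om v) y + M * ρ) := by
      refine (Finset.sum_le_sum fun i _ => h4 i).trans ?_
      have hp := pot_nonneg (om v) ρ y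
      have : 0 ≤ δ * pot ρ (om v) y := mul_nonneg hδ hp
      simp only [Finset.sum_const, Finset.card_univ, Fintype.card_fin, nsmul_eq_mul]
      push_cast
      linarith
    calc C * ∑ i, pot ρ (Gf (dir v y₀) v i) y ≤ C * (72 * (δ * pot ρ (om v) y + M * ρ)) :=
          mul_le_mul_of_nonneg_left h5 hC.le
      _ = _ := by ring
  · have h4 : ∀ i, far ρ L (Gf (dir v y₀) v i) y
        ≤ 8 * (7 * δ) * K / ρ ^ 2 + 24 * (M * (1 + Real.log (L / ρ))) := by
      intro i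
      refine far_le2 (om_per hv) (om_cont hv) hm hρ hρL (by positivity) hM.le
        fun z hz1 hz2 => ?_
      refine (G_le hρ hρL hδ hM hco hy0 hb hy hz2 i).1.trans ?_
      rw [abs_of_nonneg (om_nonneg _ _)]
      have h5 : 1 ≤ 2 * (‖z‖ / ρ) := by
        rw [← mul_div_assoc, le_div_iff₀ hρ]
        linarith
      have h6 : δ * (3 + ‖z‖ / ρ) ≤ 7 * δ * ‖z‖ / ρ := by
        rw [mul_div_assoc]
        nlinarith
      linarith [mul_le_mul_of_nonneg_right h6 (om_nonneg v (y + z))]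
    have h5 := mean_lin hv hL0 hA hd y
    have hF1 : 0 ≤ δ * K / ρ ^ 2 := by positivity
    have hF2 : 0 ≤ M * (1 + Real.log (L / ρ)) := by
      have := log_nonneg' hρ hρL
      positivity
    have hF3 : 0 ≤ A / L ^ 2 := by positivity
    have h7 : ∑ i, far ρ L (Gf (dir v y₀) v i) y
        ≤ 168 * (δ * K / ρ ^ 2) + 72 * (M * (1 + Real.log (L / ρ))) := by
      refine (Finset.sum_le_sum fun i _ => h4 i).trans ?_
      simp only [Finset.sum_const, Finset.card_univ, Fintype.card_fin, nsmul_eq_mul]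
      push_cast
      have : 8 * (7 * δ) * K / ρ ^ 2 = 56 * (δ * K / ρ ^ 2) := by ring
      rw [this]
      linarith
    rw [mul_comm 168 C, mul_assoc]
    refine mul_le_mul_of_nonneg_left ?_ hC.le
    linarith

include hv hdiv hK hρ hρL hL hA0 hA hm in
lemma exists_V {C : ℝ} (hC : 0 < C) (dec : Dec C) : ∃ V₂ : Fin 3 → V → ℝ, (∀ j, SP (V₂ j)) ∧
    (∀ j y, |v y j - V₂ j y| ≤ 3 * C * pot ρ (om v) y) ∧
    (∀ j i y, |pd i (V₂ j) y| ≤ 48 * C * (K / ρ ^ 2 + A / L ^ 2)) := by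
  have hL0 : 0 < L := hρ.trans_le hρL
  have hlen : ∀ j : Fin 3, len (Pi.single j 1 : V) = 1 := by
    intro j
    rw [len, dotProduct]
    fin_cases j <;> simp [Fin.sum_univ_three]
  have hlin : ∀ j : Fin 3, lin (Pi.single j 1 : V) v = fun y => v y j := by
    intro j
    funext y
    unfold lin
    rw [Finset.sum_eq_single j]
    · simp
    · intro m _ hmj
      simp [hmj]
    · simp
  have hj : ∀ j : Fin 3, ∃ f₂ : V → ℝ, SP f₂ ∧ (∀ y, |v y j - f₂ y| ≤ 3 * C * pot ρ (om v) y) ∧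
      (∀ i y, |pd i f₂ y| ≤ 48 * C * (K / ρ ^ 2 + A / L ^ 2)) := by
    intro j
    have hG : ∀ i y, |Gf (Pi.single j 1 : V) v i y| ≤ om v y := by
      intro i y
      refine (abs_Gf_le _ _ _ _).trans ((cross_len_le _ _).trans ?_)
      rw [hlen, one_mul]
      exact le_rfl
    obtain ⟨w₂, h1, h2, h3⟩ := dec ρ L (lin (Pi.single j 1 : V) v) (Gf (Pi.single j 1 : V) v) hρ
      hρL (by linarith) (sp_lin hv _) (fun i => sp_Gf hv _ i) (lap_lin hv hdiv _)
    rw [hlin] at h2 h3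
    refine ⟨w₂, h1, fun y => (h2 y).trans ?_, fun i y => (h3 y i).trans ?_⟩
    · have h4 : ∀ i, pot ρ (Gf (Pi.single j 1 : V) v i) y ≤ 1 * pot ρ (om v) y + 24 * 0 * ρ := by
        intro i
        refine pot_le (sp_Gf hv _ i).per (sp_Gf hv _ i).cont (om_per hv) (om_cont hv) hρ.le
          fun z hz => ?_
        rw [abs_of_nonneg (om_nonneg _ _), one_mul, add_zero]
        exact hG i _
      have h5 : ∑ i, pot ρ (Gf (Pi.single j 1 : V) v i) y ≤ 3 * pot ρ (om v) y := by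
        refine (Finset.sum_le_sum fun i _ => h4 i).trans (le_of_eq ?_)
        simp
      calc C * ∑ i, pot ρ (Gf (Pi.single j 1 : V) v i) y ≤ C * (3 * pot ρ (om v) y) :=
            mul_le_mul_of_nonneg_left h5 hC.le
        _ = _ := by ring
    · have h4 : ∀ i, far ρ L (Gf (Pi.single j 1 : V) v i) y
          ≤ 8 * 2 * K / ρ ^ 2 + 24 * (0 * (1 + Real.log (L / ρ))) := by
        intro i
        refine far_le2 (om_per hv) (om_cont hv) hm hρ hρL (by norm_num) le_rfl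
          fun z hz1 hz2 => ?_
        rw [abs_of_nonneg (om_nonneg _ _), add_zero]
        refine (hG i _).trans ?_
        have h5 : 1 ≤ 2 * ‖z‖ / ρ := by
          rw [le_div_iff₀ hρ]
          linarith
        have := mul_le_mul_of_nonneg_right h5 (om_nonneg v (y + z))
        rwa [one_mul] at this
      have h5 := mean_le2 hL0 hA y j
      have hF1 : 0 ≤ K / ρ ^ 2 := by positivity
      have hF3 : 0 ≤ A / L ^ 2 := by positivity
      have h7 : ∑ i, far ρ L (Gf (Pi.single j 1 : V) v i) y ≤ 48 * (K / ρ ^ 2) := by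
        refine (Finset.sum_le_sum fun i _ => h4 i).trans (le_of_eq ?_)
        simp only [Finset.sum_const, Finset.card_univ, Fintype.card_fin, nsmul_eq_mul]
        push_cast
        ring
      rw [mul_comm 48 C, mul_assoc]
      refine mul_le_mul_of_nonneg_left ?_ hC.le
      linarith
  choose V₂ h1 h2 h3 using hj
  exact ⟨V₂, h1, h2, fun j i y => h3 j i y⟩

end

end Pool.Agent.Q67.VD2
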