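import Pool.Agent.Q67.VD2.LocB

/-!
The local estimate of the production of enstrophy.
-/

set_option autoImplicit false

open MeasureTheory Set Metric Filter
open scoped ENNReal ContDiff Topology
open H459R3.NS Pool.Agent.W268.NS Pool.Agent.Q67.VD

namespace Pool.Agent.Q67.VD2

theorem loc3 (hdec : StmDec) : StmLoc3 := by
  obtain ⟨D, hD, hcut⟩ := Pool.Agent.Q199.VD.exists_cut
  obtain ⟨C, hC, hloc⟩ := local_est3 hdec (D := 2 * D) (by positivity)
  refine ⟨8 * C, by positivity, ?_⟩
  intro v K L ρ δ M A hv hdiv hK hρ hρL hL hδ hδ1 hM hA0 hA hm hco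
  obtain ⟨χ, h1, h2, h3, h4, h5, h6, h7, h8⟩ := hcut 0 (ρ / 2) (by positivity)
  have e2 : 2 * (ρ / 2) = ρ := by ring
  rw [e2] at h6 h8
  have hBc := Bf2_cont hv K L ρ δ M A
  have hBp := Bf2_per hv K L ρ δ M A
  have hBn := Bf2_nonneg v hK hρ hρL hδ hM.le hA0
  have hs := sp_stretchRate hv
  -- the estimate for each centre
  have key : ∀ x₀, ∫ z in closedBall (0 : V) ρ, χ z * stretchRate v (x₀ + z)
      ≤ C * ∫ z in closedBall (0 : V) ρ, 1 * Bf2 v K L ρ δ M A (x₀ + z) := by
    intro x₀
    have hmem : ∀ y, y ∉ closedBall x₀ ρ → y - x₀ ∉ closedBall (0 : V) ρ := by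
      intro y hy
      rw [mem_closedBall, dist_eq_norm] at hy ⊢
      rwa [sub_zero]
    have k1 := hloc v K L ρ δ M A hv hdiv hK hρ hρL hL hδ hδ1 hM hA0 hA hm hco x₀ (fun y => χ (y - x₀))
      (h1.comp (contDiff_id.sub contDiff_const)) (fun y hy => h6 _ (hmem y hy))
      (fun y => h3 _) (fun y => h4 _) (fun j y => by
        have e : pd j (fun y => χ (y - x₀)) y = pd j χ (y - x₀) := by
          unfold pd
          rw [fderiv_comp_sub]
        rw [e]
        refine (h7 j _).trans (le_of_eq ?_)
        field_simp)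
    have k2 : ∫ y, χ (y - x₀) * stretchRate v y
        = ∫ z in closedBall (0 : V) ρ, χ z * stretchRate v (x₀ + z) := by
      have k3 : ∫ y, χ (y - x₀) * stretchRate v y = ∫ z, χ z * stretchRate v (x₀ + z) := by
        rw [← integral_add_right_eq_self (fun y => χ (y - x₀) * stretchRate v y) x₀]
        congr 1
        funext z
        rw [add_sub_cancel_right, add_comm]
      rw [k3, setIntegral_eq_integral_of_forall_compl_eq_zero]
      intro z hz
      rw [h6 z hz, zero_mul]
    rw [k2] at k1
    refine (le_abs_self _).trans (k1.trans (le_of_eq ?_))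
    rw [← ball_shift]
    simp_rw [one_mul]
  have hc1 := avg_cont hs.cont h1.continuous ρ
  have hc2 := avg_cont (g := Bf2 v K L ρ δ M A) (φ := fun _ => 1) hBc continuous_const ρ
  have k4 : ∫ x in cube, ∫ z in closedBall (0 : V) ρ, χ z * stretchRate v (x + z)
      ≤ ∫ x in cube, C * ∫ z in closedBall (0 : V) ρ, 1 * Bf2 v K L ρ δ M A (x + z) := by
    refine integral_mono (integrableOn_cube hc1) ?_ key
    exact (integrableOn_cube hc2).const_mul _
  rw [int_avg hs.cont hs.per h1.continuous ρ, integral_const_mul,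
    int_avg hBc hBp continuous_const ρ] at k4
  have k5 : ∫ z in closedBall (0 : V) ρ, (1 : ℝ) = 8 * ρ ^ 3 := by
    rw [integral_const, smul_eq_mul, mul_one, measureReal_restrict_apply MeasurableSet.univ,
      univ_inter, vol_ball_real _ hρ.le]
    ring
  rw [k5] at k4
  have k6 : ρ ^ 3 ≤ ∫ z in closedBall (0 : V) ρ, χ z := by
    have k7 : ∫ z in closedBall (0 : V) (ρ / 2), χ z = ρ ^ 3 := by
      rw [setIntegral_congr_fun (g := fun _ => (1 : ℝ)) isClosed_closedBall.measurableSet
        (fun z hz => h5 z hz), integral_const, smul_eq_mul, mul_one,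
        measureReal_restrict_apply MeasurableSet.univ, univ_inter,
        vol_ball_real _ (by positivity)]
      ring
    rw [← k7]
    refine setIntegral_mono_set ?_ (Eventually.of_forall h3)
      (Eventually.of_forall (closedBall_subset_closedBall (by linarith)))
    exact h1.continuous.continuousOn.integrableOn_compact (isCompact_closedBall _ _)
  set S := ∫ x in cube, stretchRate v x with hS
  set J := ∫ x in cube, Bf2 v K L ρ δ M A x with hJ
  have hJ0 : 0 ≤ J := integral_nonneg hBn
  have hρ3 : 0 < ρ ^ 3 := by positivity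
  rcases le_total S 0 with h | h
  · exact h.trans (by positivity)
  · have k8 : ρ ^ 3 * S ≤ ρ ^ 3 * (8 * C * J) := by
      have := mul_le_mul_of_nonneg_right k6 h
      calc ρ ^ 3 * S ≤ _ := this
        _ ≤ C * (8 * ρ ^ 3 * J) := k4
        _ = _ := by ring
    exact le_of_mul_le_mul_left k8 hρ3

end Pool.Agent.Q67.VD2
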