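import Pool.Agent.Q67.VD.LocC

/-!
Integrals over shells with logarithmic weights, and the density in the local estimate.
-/

set_option autoImplicit false

open MeasureTheory Set Metric Filter
open scoped ENNReal ContDiff Topology
open H459R3.NS Pool.Agent.W268.NS Pool.Agent.Q67.VD

namespace Pool.Agent.Q67.VD2

lemma ker3_eq (a L : ℝ) : (closedBall (0 : V) L \ closedBall 0 a).indicator
    (fun z : V => (‖z‖ ^ 3)⁻¹)
    = fun z : V => ((Ioc a L).indicator fun y : ℝ => (y ^ 3)⁻¹) ‖z‖ := by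
  funext z
  by_cases hz : a < ‖z‖ ∧ ‖z‖ ≤ L
  · rw [indicator_of_mem (by simpa [and_comm] using hz), indicator_of_mem (by simpa using hz)]
  · rw [indicator_of_notMem (by simpa [and_comm] using hz), indicator_of_notMem (by simpa using hz)]

lemma ker3_eq2 {a L : ℝ} (ha : 0 < a) : EqOn (fun y : ℝ => y ^ (Module.finrank ℝ V - 1) •
    ((Ioc a L).indicator fun y : ℝ => (y ^ 3)⁻¹) y) ((Ioc a L).indicator fun y => y⁻¹) (Ioi 0) := by
  intro y hy
  have hy0 : (0 : ℝ) < y := hy
  have h3 : Module.finrank ℝ V = 3 := by simp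
  by_cases h : y ∈ Ioc a L
  · simp only
    rw [indicator_of_mem h, indicator_of_mem h, h3]
    simp only [smul_eq_mul]
    field_simp
  · simp only
    rw [indicator_of_notMem h, indicator_of_notMem h]
    simp

lemma ker3_val {a L : ℝ} (ha : 0 < a) (hL : a ≤ L) :
    ∫ z in closedBall (0 : V) L \ closedBall 0 a, (‖z‖ ^ 3)⁻¹ = 24 * Real.log (L / a) := by
  have hS : MeasurableSet (closedBall (0 : V) L \ closedBall 0 a) :=
    measurableSet_closedBall.diff measurableSet_closedBall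
  rw [← integral_indicator hS, ker3_eq, integral_fun_norm_addHaar,
    setIntegral_congr_fun measurableSet_Ioi (ker3_eq2 ha)]
  have h1 : volume.real (ball (0 : V) 1) = 8 := by
    rw [measureReal_def, Real.volume_pi_ball _ one_pos]
    simp
    norm_num
  have h2 : Ioi (0 : ℝ) ∩ Ioc a L = Ioc a L := inter_eq_right.2 fun y hy => ha.trans hy.1
  have h3 : Module.finrank ℝ V = 3 := by simp
  rw [h1, h3, setIntegral_indicator measurableSet_Ioc, h2,
    ← intervalIntegral.integral_of_le hL, integral_inv_of_pos ha (ha.trans_le hL)]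
  simp only [nsmul_eq_mul, smul_eq_mul]
  push_cast
  ring

lemma ker3_int {a L : ℝ} (ha : 0 < a) :
    IntegrableOn (fun z : V => (‖z‖ ^ 3)⁻¹) (closedBall (0 : V) L \ closedBall 0 a) := by
  have hK : IsCompact (closedBall (0 : V) L ∩ {z | a ≤ ‖z‖}) :=
    (isCompact_closedBall 0 L).inter_right (isClosed_le continuous_const continuous_norm)
  refine IntegrableOn.mono_set (t := closedBall (0 : V) L ∩ {z | a ≤ ‖z‖}) ?_ ?_
  · refine ContinuousOn.integrableOn_compact hK ?_
    refine ContinuousOn.inv₀ (by fun_prop) fun z hz => ?_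
    have : 0 < ‖z‖ := lt_of_lt_of_le ha hz.2
    positivity
  · rintro z ⟨h1, h2⟩
    rw [mem_closedBall, dist_zero_right, not_le] at h2
    exact ⟨h1, h2.le⟩

/-- The far part of a function bounded by `(a ‖z‖ / ρ) |g| + M`. -/
lemma far_le2 {f g : V → ℝ} (hg : Per g) (hgc : Continuous g) {K L ρ a M : ℝ}
    (hm : Mor K L g) (hρ : 0 < ρ) (hρL : ρ ≤ L) (ha : 0 ≤ a) (hM : 0 ≤ M) {x : V}
    (h : ∀ z, ρ / 2 ≤ ‖z‖ → ‖z‖ ≤ L → |f (x + z)| ≤ a * ‖z‖ / ρ * |g (x + z)| + M) :
    far ρ L f x ≤ 8 * a * K / ρ ^ 2 + 24 * (M * (1 + Real.log (L / ρ))) := by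
  have hL : 0 < L := hρ.trans_le hρL
  have hρ2 : 0 < ρ / 2 := by positivity
  have hsh := shell' hg hgc hm x hρ2 (by linarith)
  have hmeas : MeasurableSet (closedBall (0 : V) L \ closedBall 0 (ρ / 2)) :=
    isClosed_closedBall.measurableSet.diff isClosed_closedBall.measurableSet
  have i1 : IntegrableOn (fun z => |g (x + z)| / ‖z‖ ^ 2)
      (closedBall (0 : V) L \ closedBall 0 (ρ / 2)) :=
    (pot_integrable hg hgc L x).mono_set sdiff_subset
  have i2 := ker3_int (L := L) hρ2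
  have h1 : far ρ L f x ≤ ∫ z in closedBall (0 : V) L \ closedBall 0 (ρ / 2),
      (a / ρ * (|g (x + z)| / ‖z‖ ^ 2) + M * (‖z‖ ^ 3)⁻¹) := by
    unfold far
    refine integral_mono_of_nonneg (Eventually.of_forall fun z => by positivity)
      ((i1.const_mul _).add (i2.const_mul _)) ?_
    refine (ae_restrict_iff' hmeas).2 (Eventually.of_forall fun z hz => ?_)
    have hz1 : ρ / 2 < ‖z‖ := by
      have := hz.2
      rw [mem_closedBall, dist_zero_right, not_le] at this
      exact this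
    have hz2 : ‖z‖ ≤ L := by simpa using hz.1
    have hz0 : 0 < ‖z‖ := hρ2.trans hz1
    have h2 := h z hz1.le hz2
    calc |f (x + z)| / ‖z‖ ^ 3 ≤ (a * ‖z‖ / ρ * |g (x + z)| + M) / ‖z‖ ^ 3 :=
          div_le_div_of_nonneg_right h2 (by positivity)
      _ = a / ρ * (|g (x + z)| / ‖z‖ ^ 2) + M * (‖z‖ ^ 3)⁻¹ := by
          field_simp
  refine h1.trans ?_
  rw [integral_add (i1.const_mul _) (i2.const_mul _), integral_const_mul, integral_const_mul,
    ker3_val hρ2 (by linarith)]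
  have h6 : a / ρ * ∫ z in closedBall (0 : V) L \ closedBall 0 (ρ / 2), |g (x + z)| / ‖z‖ ^ 2
      ≤ a / ρ * (4 * K / (ρ / 2)) := mul_le_mul_of_nonneg_left hsh (by positivity)
  have h8 : a / ρ * (4 * K / (ρ / 2)) = 8 * a * K / ρ ^ 2 := by field_simp; ring
  have h9 : Real.log (L / (ρ / 2)) ≤ 1 + Real.log (L / ρ) := by
    have e1 : L / (ρ / 2) = 2 * (L / ρ) := by field_simp
    rw [e1, Real.log_mul (by norm_num) (by positivity)]
    have : Real.log 2 ≤ 1 := by
      have := Real.log_two_lt_d9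
      linarith
    linarith
  have h10 := mul_le_mul_of_nonneg_left h9 hM
  linarith

/-- The density in the local estimate. -/
noncomputable def Bf2 (v : V → V) (K L ρ δ M A : ℝ) (x : V) : ℝ :=
  (δ * pot ρ (om v) x + M * ρ) * (om v x * dom v x + om v x ^ 2 / ρ)
    + (δ * K / ρ ^ 2 + M * (1 + Real.log (L / ρ)) + A / L ^ 2) * om v x ^ 2
    + M * (om v x * gm v x)

/-- The local estimate of the production of enstrophy. -/
def StmLoc3 : Prop := ∃ C : ℝ, 0 < C ∧ ∀ (v : V → V) (K L ρ δ M A : ℝ),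
  (∀ i, SP (fun y => v y i)) → (∀ x, ∑ i, pd i (fun y => v y i) x = 0) → 0 ≤ K → 0 < ρ → ρ ≤ L →
  L ≤ 1 → 0 ≤ δ → δ ≤ 1 → 0 < M → 0 ≤ A → (∀ x i, ∫ y in closedBall x L, |v y i| ≤ A * L ^ 2) →
  Mor K L (om v) → Coh v M δ ρ (4 * L) →
    ∫ x in cube, stretchRate v x ≤ C * ∫ x in cube, Bf2 v K L ρ δ M A x

section

variable {v : V → V} (hv : ∀ i, SP (fun y => v y i))

include hv in
lemma Bf2_cont (K L ρ δ M A : ℝ) : Continuous (Bf2 v K L ρ δ M A) := by
  have h1 := om_cont hv
  have h2 := dom_cont hv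
  have h3 := gm_cont hv
  have h4 := pot_cont (om_per hv) h1 ρ
  unfold Bf2
  fun_prop

include hv in
lemma Bf2_per (K L ρ δ M A : ℝ) : Per (Bf2 v K L ρ δ M A) := by
  intro i x
  have h1 := om_per hv i x
  have h2 := dom_per hv i x
  have h3 := gm_per hv i x
  have h4 := pot_per (om_per hv) ρ i x
  unfold Bf2
  rw [h1, h2, h3, h4]

lemma log_nonneg' {ρ L : ℝ} (hρ : 0 < ρ) (hL : ρ ≤ L) : 0 ≤ Real.log (L / ρ) :=
  Real.log_nonneg ((one_le_div hρ).2 hL)

lemma Bf2_nonneg (v : V → V) {K L ρ δ M A : ℝ} (hK : 0 ≤ K) (hρ : 0 < ρ) (hL : ρ ≤ L) (hδ : 0 ≤ δ)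
    (hM : 0 ≤ M) (hA : 0 ≤ A) (x : V) : 0 ≤ Bf2 v K L ρ δ M A x := by
  have h1 := om_nonneg v x
  have h2 := dom_nonneg v x
  have h3 := gm_nonneg v x
  have h4 := pot_nonneg (om v) ρ x
  have h5 := log_nonneg' hρ hL
  unfold Bf2
  positivity

/-- The mean of a component. -/
lemma mean_le2 {A L : ℝ} (hL : 0 < L) (hA : ∀ x i, ∫ y in closedBall x L, |v y i| ≤ A * L ^ 2)
    (x : V) (i : Fin 3) : (∫ z in closedBall (0 : V) L, |v (x + z) i|) / L ^ 4 ≤ A / L ^ 2 := by
  rw [ball_shift (fun y => |v y i|) x L, div_le_div_iff₀ (by positivity) (by positivity)]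
  calc (∫ y in closedBall x L, |v y i|) * L ^ 2 ≤ (A * L ^ 2) * L ^ 2 :=
        mul_le_mul_of_nonneg_right (hA x i) (by positivity)
    _ = A * L ^ 4 := by ring

include hv in
lemma mean_lin {A L : ℝ} (hL : 0 < L) (hA : ∀ x i, ∫ y in closedBall x L, |v y i| ≤ A * L ^ 2)
    {e : V} (he : len e = 1) (x : V) :
    (∫ z in closedBall (0 : V) L, |lin e v (x + z)|) / L ^ 4 ≤ 3 * (A / L ^ 2) := by
  have hc : ∀ i, Continuous (fun z => |v (x + z) i|) := fun i => by
    have h2 : Continuous (fun y => v y i) := (hv i).cont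
    exact (h2.comp (continuous_const.add continuous_id)).abs
  have hlc : Continuous (fun z => |lin e v (x + z)|) :=
    ((sp_lin hv e).cont.comp (continuous_const.add continuous_id)).abs
  have h1 : ∫ z in closedBall (0 : V) L, |lin e v (x + z)|
      ≤ ∫ z in closedBall (0 : V) L, ∑ i, |v (x + z) i| := by
    refine setIntegral_mono_on (hlc.continuousOn.integrableOn_compact (isCompact_closedBall _ _))
      ((continuous_finsetSum _ fun i _ => hc i).continuousOn.integrableOn_compact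
        (isCompact_closedBall _ _)) measurableSet_closedBall fun z _ => ?_
    unfold lin
    refine (Finset.abs_sum_le_sum_abs _ _).trans (Finset.sum_le_sum fun m _ => ?_)
    rw [abs_mul]
    calc |e m| * |v (x + z) m| ≤ 1 * |v (x + z) m| :=
          mul_le_mul_of_nonneg_right (abs_le_one_of_len he m) (abs_nonneg _)
      _ = _ := one_mul _
  rw [integral_finsetSum _ fun i _ =>
    (hc i).continuousOn.integrableOn_compact (isCompact_closedBall _ _)] at h1
  have h2 := div_le_div_of_nonneg_right h1 (by positivity : 0 ≤ L ^ 4)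
  refine h2.trans ?_
  rw [Finset.sum_div]
  refine (Finset.sum_le_sum fun i _ => mean_le2 hL hA x i).trans (le_of_eq ?_)
  simp

end

end Pool.Agent.Q67.VD2
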