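import Pool.Agent.Q67.VD2.Fix
import Pool.Agent.Q67.VD2.Flux
import Pool.Agent.Q67.VD.Time

/-!
The production of enstrophy at a fixed time, and the growth of the enstrophy.
-/

set_option autoImplicit false

open MeasureTheory Set Metric Filter
open scoped ENNReal ContDiff Topology
open H459R3.NS Pool.Agent.W268.NS Pool.Agent.Q67.VD

namespace Pool.Agent.Q67.VD2

/-- The production of enstrophy at a fixed time. -/
theorem fixed3 (hfix : StmFix3) (hflux : StmFluxA) : ∃ C : ℝ, 0 < C ∧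
    ∀ (v : V → V) (ν A M κ R₀ R₁ : ℝ), (∀ i, SP (fun y => v y i)) →
    (∀ x, ∑ i, pd i (fun y => v y i) x = 0) → 0 < ν → 0 ≤ A → 0 < M → 0 < κ → κ ≤ 1 →
    0 < R₁ → R₁ ≤ R₀ → R₀ ≤ 1 → (∀ x i, ∫ y in closedBall x R₀, |v y i| ≤ A * R₀ ^ 2) →
    (∀ x y, ‖x - y‖ ≤ R₀ → M < om v x → M < om v y →
      κ ≤ dir v x ⬝ᵥ dir v y ∧ len (dir v x - dir v y)
        ≤ min 1 (κ ^ 2 * ν / (C * (A + M * R₀ ^ 2))) * (1 + ‖x - y‖ / R₁)) →
    2 * ∫ x in cube, stretchRate v x ≤ ν * palin v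
      + C * (ν / R₁ ^ 2 + M ^ 2 * R₁ ^ 2 / ν + M * Real.log (R₀ / R₁) + A / R₀ ^ 2)
        * enstrophy v := by
  obtain ⟨C3, hC3, fx⟩ := hfix
  obtain ⟨C4, hC4, fl⟩ := hflux
  set C : ℝ := 16 * C3 * C4 + 64 + 8 * C3 ^ 2 + 8194 * C3 with hC
  have hC0 : 0 < C := by positivity
  refine ⟨C, hC0, ?_⟩
  intro v ν A M κ R₀ R₁ hv hdiv hν hA0 hM hκ hκ1 hR1 hR10 hR0 hA h
  have hR00 : 0 < R₀ := hR1.trans_le hR10
  set s : ℝ := A + M * R₀ ^ 2 with hs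
  have hs0 : 0 < s := by positivity
  set K : ℝ := C4 / κ ^ 2 * s with hK
  have hK0 : 0 < K := by positivity
  set δ₀ : ℝ := κ ^ 2 * ν / (C * s) with hδ₀
  have hδ₀0 : 0 < δ₀ := by positivity
  set δ : ℝ := min 1 δ₀ with hδ
  have hδ0 : 0 ≤ δ := le_min zero_le_one hδ₀0.le
  have hδ1 : δ ≤ 1 := min_le_left _ _
  have hC32 : 0 < C3 ^ 2 := by positivity
  have hC34 : 0 < C3 * C4 := by positivity
  have hδK : δ * K ≤ ν / (4 * C3) := by
    have h1 : δ * K ≤ δ₀ * K := mul_le_mul_of_nonneg_right (min_le_right _ _) hK0.le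
    have h2 : δ₀ * K = C4 * ν / C := by
      rw [hδ₀, hK]
      field_simp
    have h3 : C4 * ν / C ≤ ν / (4 * C3) := by
      rw [div_le_div_iff₀ hC0 (by positivity)]
      have h4 : 4 * C3 * C4 ≤ C := by
        rw [hC]
        linarith
      nlinarith
    linarith
  have hmono : ∀ x i r, r ≤ R₀ → ∫ y in closedBall x r, |v y i| ≤ A * R₀ ^ 2 := by
    intro x i r hr
    refine le_trans ?_ (hA x i)
    exact setIntegral_mono_set ((hv i).cont.abs.continuousOn.integrableOn_compact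
      (isCompact_closedBall _ _)) (Eventually.of_forall fun y => abs_nonneg _)
      (Eventually.of_forall (closedBall_subset_closedBall hr))
  -- the Morrey bound
  have hm : Mor K (R₀ / 8) (om v) := by
    refine fl v M R₀ κ A hv hdiv hM.le hR00 hκ hκ1 hA0 (fun x i => hmono x i _ (by linarith))
      fun x y hxy hx hy => ?_
    have hx0 := hM.trans hx
    have hy0 := hM.trans hy
    rw [vort_dot hx0 hy0, mul_comm]
    exact mul_le_mul_of_nonneg_left (h x y hxy hx hy).1 (mul_pos hx0 hy0).le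
  -- coherence of the direction
  have hco : Coh v M δ (R₁ / 8) (4 * (R₀ / 8)) := by
    intro x y hxy hx hy
    obtain ⟨_, h2⟩ := h x y (by linarith) hx hy
    have hn := norm_nonneg (x - y)
    have h3 : ‖x - y‖ / R₁ ≤ ‖x - y‖ / (R₁ / 8) :=
      div_le_div_of_nonneg_left hn (by positivity) (by linarith)
    exact h2.trans (mul_le_mul_of_nonneg_left (by linarith) hδ0)
  have key := fx v K (R₀ / 8) (R₁ / 8) δ M (64 * A) (ν / (4 * C3)) hv hdiv hK0.le (by positivity)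
    (by linarith) (by linarith) hδ0 hδ1 hM (by positivity) (fun x i => by
      refine (hmono x i _ (by linarith)).trans (le_of_eq ?_)
      ring) (by positivity) hm hco
  have hlogeq : R₀ / 8 / (R₁ / 8) = R₀ / R₁ := by field_simp
  rw [hlogeq] at key
  have hlog := log_nonneg' hR1 hR10
  have hP := palin_nonneg v
  have hEn := enstrophy_nonneg v
  have a1 : 2 * (C3 * ((δ * K + ν / (4 * C3)) * palin v)) ≤ ν * palin v := by
    have e1 : 2 * (C3 * ((ν / (4 * C3) + ν / (4 * C3)) * palin v)) = ν * palin v := by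
      field_simp
      ring
    rw [← e1]
    gcongr
  have b1 : 0 ≤ ν / R₁ ^ 2 := by positivity
  have b2 : 0 ≤ M ^ 2 * R₁ ^ 2 / ν := by positivity
  have b3 : 0 ≤ M * Real.log (R₀ / R₁) := by positivity
  have b4 : 0 ≤ A / R₀ ^ 2 := by positivity
  have a3 : 2 * (C3 * ((δ * K + ν / (4 * C3)) / (R₁ / 8) ^ 2)) ≤ 64 * (ν / R₁ ^ 2) := by
    have e1 : 2 * (C3 * ((ν / (4 * C3) + ν / (4 * C3)) / (R₁ / 8) ^ 2)) = 64 * (ν / R₁ ^ 2) := by
      field_simp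
      ring
    rw [← e1]
    gcongr
  have a4 : 2 * (C3 * (M ^ 2 * (R₁ / 8) ^ 2 / (ν / (4 * C3))))
      = C3 ^ 2 / 8 * (M ^ 2 * R₁ ^ 2 / ν) := by
    field_simp
    ring
  have a5 : 2 * (C3 * (64 * A / (R₀ / 8) ^ 2)) = 8192 * C3 * (A / R₀ ^ 2) := by
    field_simp
    ring
  have a6 : M ≤ ν / R₁ ^ 2 + M ^ 2 * R₁ ^ 2 / ν := by
    have h1 : ν / R₁ ^ 2 + M ^ 2 * R₁ ^ 2 / ν - M
        = ((ν - M * R₁ ^ 2 / 2) ^ 2 + 3 / 4 * (M * R₁ ^ 2) ^ 2) / (ν * R₁ ^ 2) := by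
      field_simp
      ring
    have h2 : 0 ≤ ((ν - M * R₁ ^ 2 / 2) ^ 2 + 3 / 4 * (M * R₁ ^ 2) ^ 2) / (ν * R₁ ^ 2) := by
      positivity
    linarith
  have a7 : 2 * (C3 * ((δ * K + ν / (4 * C3)) / (R₁ / 8) ^ 2
      + M ^ 2 * (R₁ / 8) ^ 2 / (ν / (4 * C3)) + M * (1 + Real.log (R₀ / R₁))
      + 64 * A / (R₀ / 8) ^ 2))
      ≤ C * (ν / R₁ ^ 2 + M ^ 2 * R₁ ^ 2 / ν + M * Real.log (R₀ / R₁) + A / R₀ ^ 2) := by
    have c0 : 2 * (C3 * (M * (1 + Real.log (R₀ / R₁))))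
        ≤ 2 * C3 * (ν / R₁ ^ 2) + 2 * C3 * (M ^ 2 * R₁ ^ 2 / ν)
          + 2 * C3 * (M * Real.log (R₀ / R₁)) := by
      have := mul_le_mul_of_nonneg_left a6 (by positivity : 0 ≤ 2 * C3)
      linarith
    have c1 : (64 + 2 * C3) * (ν / R₁ ^ 2) ≤ C * (ν / R₁ ^ 2) :=
      mul_le_mul_of_nonneg_right (by rw [hC]; linarith) b1
    have c2 : (C3 ^ 2 / 8 + 2 * C3) * (M ^ 2 * R₁ ^ 2 / ν) ≤ C * (M ^ 2 * R₁ ^ 2 / ν) :=
      mul_le_mul_of_nonneg_right (by rw [hC]; linarith) b2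
    have c3 : 2 * C3 * (M * Real.log (R₀ / R₁)) ≤ C * (M * Real.log (R₀ / R₁)) :=
      mul_le_mul_of_nonneg_right (by rw [hC]; linarith) b3
    have c4 : 8192 * C3 * (A / R₀ ^ 2) ≤ C * (A / R₀ ^ 2) :=
      mul_le_mul_of_nonneg_right (by rw [hC]; linarith) b4
    linarith
  have a8 := mul_le_mul_of_nonneg_right a7 hEn
  have a9 := mul_le_mul_of_nonneg_left key (by norm_num : (0 : ℝ) ≤ 2)
  linarith

/-- The criterion with the constant `C`. -/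
def Crit (C : ℝ) : Prop :=
  ∀ (ν T : ℝ) (u : ℝ → V → V) (p : ℝ → V → ℝ) (T₀ : ℝ) (A κ R₀ R₁ M Γ : ℝ → ℝ), 0 < ν →
    IsSol ν T u p → T₀ ∈ Ico 0 T →
    (∀ t ∈ Ioo T₀ T, 0 < M t ∧ 0 < κ t ∧ κ t ≤ 1 ∧ 0 < R₁ t ∧ R₁ t ≤ R₀ t ∧ R₀ t ≤ 1 ∧
      (∀ x i, ∫ y in closedBall x (R₀ t), |u t y i| ≤ A t * R₀ t ^ 2) ∧
      ν / R₁ t ^ 2 + M t ^ 2 * R₁ t ^ 2 / ν + M t * Real.log (R₀ t / R₁ t) + A t / R₀ t ^ 2
        ≤ Γ t ∧
      ∀ x y, ‖x - y‖ ≤ R₀ t → M t < om (u t) x → M t < om (u t) y →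
        κ t ≤ dir (u t) x ⬝ᵥ dir (u t) y ∧
        len (dir (u t) x - dir (u t) y)
          ≤ min 1 (κ t ^ 2 * ν / (C * (A t + M t * R₀ t ^ 2))) * (1 + ‖x - y‖ / R₁ t)) →
    IntegrableOn Γ (Ioo T₀ T) →
    (∀ t ∈ Ico T₀ T, enstrophy (u t) ≤ enstrophy (u T₀) * Real.exp (C * ∫ s in T₀..t, Γ s)) ∧
    ∃ B, ∀ t ∈ Ico 0 T, ∀ x i, |u t x i| ≤ B

/-- The growth of the enstrophy. -/
theorem growth3 (hfix : StmFix3) (hflux : StmFluxA) : ∃ C : ℝ, 0 < C ∧ Crit C := by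
  obtain ⟨C, hC, fx⟩ := fixed3 hfix hflux
  refine ⟨C, hC, ?_⟩
  intro ν T u p T₀ A κ R₀ R₁ M Γ hν hsol hT₀ h hΓ
  set w : ℝ → V → V := fun t => u (t + T₀) with hw
  have hsw : IsSol ν (T - T₀) w (fun t => p (t + T₀)) := shift_sol hsol hT₀
  have hw0 : w 0 = u T₀ := by simp [hw]
  set g : ℝ → ℝ := fun s => C * Γ (s + T₀) with hg
  have hsh : ∀ s ∈ Ioo 0 (T - T₀), s + T₀ ∈ Ioo T₀ T := fun s hs =>
    ⟨by linarith [hs.1], by linarith [hs.2]⟩
  have hAnn : ∀ t ∈ Ioo T₀ T, 0 ≤ A t := by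
    intro t ht
    obtain ⟨h1, _, _, h2, h3, h4, h5, _⟩ := h t ht
    have h6 : 0 < R₀ t := h2.trans_le h3
    have h7 : 0 ≤ A t * R₀ t ^ 2 := le_trans (integral_nonneg fun y => abs_nonneg _) (h5 0 0)
    exact nonneg_of_mul_nonneg_left h7 (by positivity)
  have hΓ0 : ∀ t ∈ Ioo T₀ T, 0 ≤ Γ t := by
    intro t ht
    have hA := hAnn t ht
    obtain ⟨h1, _, _, h2, h3, h4, _, h5, _⟩ := h t ht
    have h6 : 0 < R₀ t := h2.trans_le h3
    have h7 := log_nonneg' h2 h3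
    refine le_trans ?_ h5
    positivity
  have hg0 : ∀ s ∈ Ioo 0 (T - T₀), 0 ≤ g s := fun s hs => mul_nonneg hC.le (hΓ0 _ (hsh s hs))
  have hΓi : ∀ t ∈ Ico 0 (T - T₀), IntervalIntegrable Γ volume T₀ (t + T₀) := by
    intro t ht
    rw [intervalIntegrable_iff_integrableOn_Ioo_of_le (by linarith [ht.1])]
    exact hΓ.mono_set fun s hs => ⟨hs.1, by linarith [hs.2, ht.2]⟩
  have hgi' : ∀ t ∈ Ico 0 (T - T₀), IntervalIntegrable g volume 0 t := by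
    intro t ht
    have h1 := (hΓi t ht).comp_add_right T₀
    rw [sub_self, add_sub_cancel_right] at h1
    exact h1.const_mul C
  have hgi : ∀ t ∈ Ico 0 (T - T₀), IntegrableOn g (Icc 0 t) := fun t ht =>
    (intervalIntegrable_iff_integrableOn_Icc_of_le ht.1).1 (hgi' t ht)
  have hgint : ∀ t ∈ Ico 0 (T - T₀), ∫ s in (0 : ℝ)..t, g s = C * ∫ s in T₀..(t + T₀), Γ s := by
    intro t _
    rw [hg, intervalIntegral.integral_const_mul,
      intervalIntegral.integral_comp_add_right (fun s => Γ s) T₀, zero_add]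
  have hgB : ∀ t ∈ Ico 0 (T - T₀), ∫ s in (0 : ℝ)..t, g s ≤ C * ∫ s in Ioo T₀ T, Γ s := by
    intro t ht
    rw [hgint t ht]
    refine mul_le_mul_of_nonneg_left ?_ hC.le
    rw [intervalIntegral.integral_of_le (by linarith [ht.1]), integral_Ioc_eq_integral_Ioo]
    refine setIntegral_mono_set hΓ ?_ (Eventually.of_forall fun s hs => ⟨hs.1, by
      linarith [hs.2, ht.2]⟩)
    exact (ae_restrict_iff' measurableSet_Ioo).2 (Eventually.of_forall fun s hs => hΓ0 s hs)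
  have hd : ∀ s ∈ Ioo 0 (T - T₀), -(2 * cub (fun i y => w s y i))
      ≤ (2 - 1) * (ν * palin (w s)) + g s * enstrophy (w s) := by
    intro s hs
    have hsI : s ∈ Ico 0 (T - T₀) := ⟨hs.1.le, hs.2⟩
    have hAs := hAnn _ (hsh s hs)
    obtain ⟨h1, k1, k2, h2, h3, h4, k3, h5, h6⟩ := h _ (hsh s hs)
    have hvs := fun i => hsw.sp hsI i
    have hds := hsw.divfree s hsI
    have h7 := fx (w s) ν (A (s + T₀)) (M (s + T₀)) (κ (s + T₀)) (R₀ (s + T₀)) (R₁ (s + T₀))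
      hvs hds hν hAs h1 k1 k2 h2 h3 h4 k3 h6
    have h8 := cub_eq_stretch hvs hds
    have h9 := mul_le_mul_of_nonneg_right (mul_le_mul_of_nonneg_left h5 hC.le)
      (enstrophy_nonneg (w s))
    rw [← h8] at h7
    linarith
  obtain ⟨-, B1, hB1⟩ := hsw.gron hν one_pos hg0 hgi hgB hd
  obtain ⟨B0, hB0⟩ := bdd_initial hsol hT₀
  refine ⟨fun t ht => ?_, max B0 B1, fun t ht x i => ?_⟩
  · have hs : t - T₀ ∈ Ico 0 (T - T₀) := ⟨by linarith [ht.1], by linarith [ht.2]⟩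
    have h1 := hsw.gron_enstrophy hs (fun s hs' => hg0 s ⟨hs'.1, hs'.2.trans hs.2⟩) (hgi _ hs)
      (le_of_eq (hgint _ hs)) fun s hs' => by
        have h2 := hd s ⟨hs'.1, hs'.2.trans hs.2⟩
        have h3 : 0 ≤ ν * palin (w s) := mul_nonneg hν.le (palin_nonneg _)
        linarith
    rw [hw0] at h1
    have e1 : w (t - T₀) = u t := by simp [hw]
    rw [e1, sub_add_cancel] at h1
    exact h1
  · rcases le_total t T₀ with h1 | h1
    · exact (hB0 t ⟨ht.1, h1⟩ x i).trans (le_max_left _ _)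
    · have h2 := hB1 (t - T₀) ⟨by linarith, by linarith [ht.2]⟩ x i
      have e1 : w (t - T₀) = u t := by simp [hw]
      rw [e1] at h2
      exact h2.trans (le_max_right _ _)

end Pool.Agent.Q67.VD2
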